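import Pool.Agent.DNeo.Fam2

/-!
# MP_c5bf8c_al: D-neofields of order `K * L + 1`

For every even `K` with `20 ≤ K ≤ 60`, for every power of two `K ≥ 32` and for every `L > 1`
coprime to `6` there are a commutative and a non-commutative D-neofield of order `K * L + 1`.
-/

set_option autoImplicit false

namespace Pool.Agent.Results.MP_c5bf8c_al.KLplusOne

open Pool.Agent.DNeo

theorem table {K L : ℕ} (hK : Even K) (h20 : 20 ≤ K) (h60 : K ≤ 60) (h1 : 1 < L)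
    (hL : Nat.Coprime L 6) : HasComm (K * L + 1) ∧ HasNonComm (K * L + 1) := by
  obtain ⟨H, rfl⟩ := hK
  have e : H + H = 2 * H := by ring
  rw [e]
  have h3 : 10 ≤ H := by omega
  have h4 : H ≤ 30 := by omega
  interval_cases H
  · exact ⟨comm20 hL, nonc20 h1 hL⟩
  · exact ⟨comm22 hL, nonc22 h1 hL⟩
  · exact ⟨comm24 hL, nonc24 h1 hL⟩
  · exact ⟨comm26 hL, nonc26 h1 hL⟩
  · exact ⟨comm28 hL, nonc28 h1 hL⟩
  · exact ⟨comm30 hL, nonc30 h1 hL⟩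
  · exact ⟨comm32 hL, nonc32 h1 hL⟩
  · exact ⟨comm34 hL, nonc34 h1 hL⟩
  · exact ⟨comm36 hL, nonc36 h1 hL⟩
  · exact ⟨comm38 hL, nonc38 h1 hL⟩
  · exact ⟨comm40 hL, nonc40 h1 hL⟩
  · exact ⟨comm42 hL, nonc42 h1 hL⟩
  · exact ⟨comm44 hL, nonc44 h1 hL⟩
  · exact ⟨comm46 hL, nonc46 h1 hL⟩
  · exact ⟨comm48 hL, nonc48 h1 hL⟩
  · exact ⟨comm50 hL, nonc50 h1 hL⟩
  · exact ⟨comm52 hL, nonc52 h1 hL⟩
  · exact ⟨comm54 hL, nonc54 h1 hL⟩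
  · exact ⟨comm56 hL, nonc56 h1 hL⟩
  · exact ⟨comm58 hL, nonc58 h1 hL⟩
  · exact ⟨comm60 hL, nonc60 h1 hL⟩

theorem pow_two {k L : ℕ} (h5 : 5 ≤ k) (h1 : 1 < L) (hL : Nat.Coprime L 6) :
    HasComm (2 ^ k * L + 1) ∧ HasNonComm (2 ^ k * L + 1) := by
  obtain ⟨m, rfl⟩ : ∃ m, k = m + 1 := ⟨k - 1, by omega⟩
  have e : 2 ^ (m + 1) = 2 * 2 ^ m := by ring
  have h16 : 16 ≤ 2 ^ m := by
    calc 16 = 2 ^ 4 := by norm_num
      _ ≤ 2 ^ m := Nat.pow_le_pow_right (by norm_num) (by omega)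
  have hev : 2 ^ m % 2 = 0 := by
    obtain ⟨n, rfl⟩ : ∃ n, m = n + 1 := ⟨m - 1, by omega⟩
    rw [pow_succ]
    omega
  rw [e]
  have hC : Slp 6 (2 ^ m) (muS (nuC (2 ^ m)) (2 ^ m)) :=
    slp_of (by omega) (chainC (by omega) hev)
  have hN : Slp 6 (2 ^ m) (muS (nuN (2 ^ m)) (2 ^ m)) := slp_of (by omega) (chainN h16 hev)
  exact ⟨hasComm (lev_fam rfl hC) (comm_fam hC (sym_of (nuC_sym (by omega))))
      (odd_of_cop hL) hL,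
    hasNonComm (lev_fam rfl hN) (ncN h16) (odd_of_cop hL) hL (five_le h1 hL)⟩

/-- Main theorem. -/
theorem result :
    (∀ K L : ℕ, ((Even K ∧ 20 ≤ K ∧ K ≤ 60) ∨ ∃ k, 5 ≤ k ∧ K = 2 ^ k) → 1 < L →
      Nat.Coprime L 6 → HasComm (K * L + 1) ∧ HasNonComm (K * L + 1)) ∧
    (∀ K L : ℕ, (K = 12 ∨ K = 14 ∨ K = 16) → Nat.Coprime L 6 → HasComm (K * L + 1)) ∧
    (∀ L : ℕ, 1 < L → Nat.Coprime L 6 → HasNonComm (18 * L + 1)) := by
  refine ⟨?_, ?_, fun L h1 hL => nonc18 h1 hL⟩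
  · rintro K L (⟨hK, h20, h60⟩ | ⟨k, hk, rfl⟩) h1 hL
    · exact table hK h20 h60 h1 hL
    · exact pow_two hk h1 hL
  · rintro K L (rfl | rfl | rfl) hL
    · exact comm12 hL
    · exact comm14 hL
    · exact comm16 hL

end Pool.Agent.Results.MP_c5bf8c_al.KLplusOne
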